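import Pool.Agent.H500.ED.Stm

set_option autoImplicit false

/-!
Project ED of helper500, part E4: finitely many traces.
-/

namespace Pool.Agent.H225.ED.FIN

open Polynomial

/-- the sums of multisets of given size with entries in a finite set -/
theorem fin_sums {C : Type} [AddCommMonoid C] (E : Set C) (hE : E.Finite) (n : ℕ) :
    {t : C | ∃ s : Multiset C, s.card = n ∧ (∀ x ∈ s, x ∈ E) ∧ s.sum = t}.Finite := by
  induction n with
  | zero =>
    refine (Set.finite_singleton (0 : C)).subset ?_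
    rintro t ⟨s, hs, _, rfl⟩
    rw [Multiset.card_eq_zero.1 hs]
    simp
  | succ n ih =>
    refine (Set.Finite.image2 (fun a b => a + b) hE ih).subset ?_
    rintro t ⟨s, hs, hsE, rfl⟩
    obtain ⟨a, ha⟩ : ∃ a, a ∈ s := Multiset.card_pos_iff_exists_mem.1 (by omega)
    obtain ⟨s', rfl⟩ := Multiset.exists_cons_of_mem ha
    have hs' : s'.card = n := by
      rw [Multiset.card_cons] at hs
      omega
    refine ⟨a, hsE a (Multiset.mem_cons_self a s'), s'.sum, ⟨s', hs', ?_, rfl⟩, ?_⟩
    · intro x hx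
      exact hsE x (Multiset.mem_cons_of_mem hx)
    · rw [Multiset.sum_cons]

theorem fin_roots {C : Type} [Field C] {n : ℕ} (D : Fin n → C) (d : ℕ) (hd : 0 < d) :
    {x : C | ∃ i, x ^ d = D i}.Finite := by
  have h : {x : C | ∃ i, x ^ d = D i} = ⋃ i, {x | x ^ d = D i} := by
    ext x
    simp
  rw [h]
  refine Set.finite_iUnion fun i => ?_
  refine (Multiset.finite_toSet (nthRoots d (D i))).subset ?_
  intro x hx
  exact (mem_nthRoots hd).2 hx

/-- the possible traces of the roots of a diagonal matrix -/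
theorem fin_trace {C : Type} [Field C] [IsAlgClosed C] {n : ℕ} (D : Fin n → C) (d : ℕ)
    (hd : 0 < d) :
    {t : C | ∃ M : Matrix (Fin n) (Fin n) C, M ^ d = Matrix.diagonal D ∧ t = M.trace}.Finite := by
  refine (fin_sums _ (fin_roots D d hd) n).subset ?_
  rintro t ⟨M, hM, rfl⟩
  have hsp : M.charpoly.Splits := IsAlgClosed.splits _
  refine ⟨M.charpoly.roots, ?_, ?_, (Matrix.trace_eq_sum_roots_charpoly_of_splits hsp).symm⟩
  · rw [← hsp.natDegree_eq_card_roots, Matrix.charpoly_natDegree_eq_dim, Fintype.card_fin]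
  · intro x hx
    have h1 : M.charpoly.IsRoot x := isRoot_of_mem_roots hx
    have h2 : x ∈ spectrum C M := Matrix.mem_spectrum_iff_isRoot_charpoly.2 h1
    have h3 : x ^ d ∈ spectrum C (M ^ d) := spectrum.pow_mem_pow M d h2
    rw [hM, spectrum_diagonal] at h3
    obtain ⟨i, hi⟩ := h3
    exact ⟨i, hi.symm⟩

/-- finitely many points detect the linear combinations of given functions -/
theorem fin_points {G C : Type} [Nonempty G] [Field C] (U : Set G) {n : ℕ} (Ψ : Fin n → G → C) :
    ∃ D : Set G, D ⊆ U ∧ D.Finite ∧ ∀ a : Fin n → C, (∀ u ∈ D, ∑ i, a i * Ψ i u = 0) →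
      ∀ u ∈ U, ∑ i, a i * Ψ i u = 0 := by
  obtain ⟨b, hb, hspan, hli⟩ := exists_linearIndependent C ((fun u => fun i => Ψ i u) '' U)
  have hbf : b.Finite := hli.setFinite
  have hb' : ∀ v, ∃ u, v ∈ b → u ∈ U ∧ (fun i => Ψ i u) = v := by
    intro v
    by_cases hv : v ∈ b
    · obtain ⟨u, hu, hu'⟩ := hb hv
      exact ⟨u, fun _ => ⟨hu, hu'⟩⟩
    · exact ⟨Classical.arbitrary G, fun h => absurd h hv⟩
  choose w hw using hb'
  refine ⟨w '' b, ?_, hbf.image w, ?_⟩
  · rintro _ ⟨v, hv, rfl⟩
    exact (hw v hv).1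
  · intro a ha u hu
    have h1 : (fun i => Ψ i u) ∈ Submodule.span C b := by
      rw [hspan]
      exact Submodule.subset_span ⟨u, hu, rfl⟩
    have h2 : ∀ v ∈ Submodule.span C b, ∑ i, a i * v i = 0 := by
      intro v hv
      induction hv using Submodule.span_induction with
      | mem v hv =>
        have h3 := ha (w v) ⟨v, hv, rfl⟩
        have h4 : (fun i => Ψ i (w v)) = v := (hw v hv).2
        rw [← h4]
        exact h3
      | zero => simp
      | add v v' _ _ ih ih' =>
        simp only [Pi.add_apply, mul_add, Finset.sum_add_distrib, ih, ih', add_zero]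
      | smul c v _ ih =>
        have h5 : ∑ i, a i * (c • v) i = c * ∑ i, a i * v i := by
          rw [Finset.mul_sum]
          refine Finset.sum_congr rfl fun i _ => ?_
          rw [Pi.smul_apply, smul_eq_mul]
          ring
        rw [h5, ih, mul_zero]
    exact h2 _ h1

theorem main : Pool.Agent.H500.ED.S_FIN := by
  intro G _ U n C _ _ Ψ hN hU
  -- the exponent
  have hd : 0 < U.index := Nat.pos_of_ne_zero hU.index_ne_zero
  have hpow : ∀ g : G, g ^ U.index ∈ U := by
    intro g
    exact Subgroup.pow_index_mem U g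
  -- the values at one element
  have hval : ∀ g : G, {t : C | ∃ R : G →* GL (Fin n) C,
      (∀ u ∈ U, (R u : Matrix (Fin n) (Fin n) C) = Matrix.diagonal fun i => Ψ i u) ∧
      t = (R g : Matrix (Fin n) (Fin n) C).trace}.Finite := by
    intro g
    refine (fin_trace (fun i => Ψ i (g ^ U.index)) U.index hd).subset ?_
    rintro t ⟨R, hR, rfl⟩
    refine ⟨R g, ?_, rfl⟩
    rw [← hR _ (hpow g), map_pow]
    rfl
  obtain ⟨D, hDU, hDf, hD⟩ := fin_points (U : Set G) Ψ
  -- the finite set of test elements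
  have hq : Finite (G ⧸ U) := Subgroup.finite_quotient_of_finiteIndex
  let X : Set G := ⋃ q : G ⧸ U, (fun u => q.out * u) '' D
  have hX : X.Finite := Set.finite_iUnion fun q => hDf.image _
  have : Finite X := hX
  refine Set.Finite.of_finite_image (f := fun (T : G → C) (x : X) => T x) ?_ ?_
  · refine (Set.Finite.pi' (t := fun x : X => {t : C | ∃ R : G →* GL (Fin n) C,
      (∀ u ∈ U, (R u : Matrix (Fin n) (Fin n) C) = Matrix.diagonal fun i => Ψ i u) ∧
      t = (R x : Matrix (Fin n) (Fin n) C).trace}) fun x => hval x).subset ?_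
    rintro _ ⟨T, ⟨R, hR, rfl⟩, rfl⟩ x
    exact ⟨R, hR, rfl⟩
  · rintro T ⟨R, hR, rfl⟩ T' ⟨R', hR', rfl⟩ hTT
    have hexp : ∀ (R : G →* GL (Fin n) C),
        (∀ u ∈ U, (R u : Matrix (Fin n) (Fin n) C) = Matrix.diagonal fun i => Ψ i u) →
        ∀ g : G, ∀ u ∈ U, (R (g * u) : Matrix (Fin n) (Fin n) C).trace =
          ∑ i, (R g : Matrix (Fin n) (Fin n) C) i i * Ψ i u := by
      intro R hR g u hu
      have h1 : (R (g * u) : Matrix (Fin n) (Fin n) C) =
          (R g : Matrix (Fin n) (Fin n) C) * (R u : Matrix (Fin n) (Fin n) C) := by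
        rw [map_mul]
        rfl
      rw [h1, hR u hu, Matrix.trace]
      refine Finset.sum_congr rfl fun i _ => ?_
      rw [Matrix.diag_apply, Matrix.mul_diagonal]
    have hTT' : ∀ x ∈ X, (R x : Matrix (Fin n) (Fin n) C).trace =
        (R' x : Matrix (Fin n) (Fin n) C).trace := fun x hx => congrFun hTT ⟨x, hx⟩
    funext g
    let q : G ⧸ U := (g : G ⧸ U)
    have hg : (q.out)⁻¹ * g ∈ U := by
      rw [← QuotientGroup.eq]
      exact q.out_eq
    have hg' : g = q.out * ((q.out)⁻¹ * g) := by group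
    have h2 : ∀ u ∈ D, ∑ i, ((R q.out : Matrix (Fin n) (Fin n) C) i i -
        (R' q.out : Matrix (Fin n) (Fin n) C) i i) * Ψ i u = 0 := by
      intro u hu
      have h3 := hTT' (q.out * u) (Set.mem_iUnion.2 ⟨q, u, hu, rfl⟩)
      rw [hexp R hR _ u (hDU hu), hexp R' hR' _ u (hDU hu)] at h3
      simp only [sub_mul, Finset.sum_sub_distrib]
      rw [h3, sub_self]
    have h4 := hD _ h2 _ hg
    simp only [sub_mul, Finset.sum_sub_distrib] at h4
    have h5 := hexp R hR q.out _ hg
    have h6 := hexp R' hR' q.out _ hg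
    rw [← hg'] at h5 h6
    show (R g : Matrix (Fin n) (Fin n) C).trace = (R' g : Matrix (Fin n) (Fin n) C).trace
    rw [h5, h6]
    exact sub_eq_zero.1 h4

end Pool.Agent.H225.ED.FIN
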